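import Mathlib

set_option autoImplicit false

namespace Pool.Agent.Helper83.XV

/-- V4 -/
theorem asymp {d₀ : ℝ} (h0 : 0 < d₀) : ∃ G : ℕ, 10 ^ 10 ≤ G ∧ ∀ m : ℕ, G ≤ m → ∀ β : ℝ, 1 ≤ β →
    β ≤ (m : ℝ) ^ (4 / 5 : ℝ) → 24 * (m : ℝ) ^ (2 * β) ≤ Real.exp (d₀ * m / 2) := by
  refine ⟨max (10 ^ 10) ⌈(48 / d₀) ^ 10⌉₊, le_max_left _ _, fun m hm β hβ1 hβ => ?_⟩
  have hm1 : 10 ^ 10 ≤ m := (le_max_left _ _).trans hm
  have hm2 : (48 / d₀) ^ 10 ≤ (m : ℝ) :=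
    (Nat.le_ceil _).trans (by exact_mod_cast (le_max_right _ _).trans hm)
  have hmR : (1 : ℝ) ≤ m := by exact_mod_cast (by omega : 1 ≤ m)
  have hm0 : (0 : ℝ) < m := by linarith
  have hL0 : 0 ≤ Real.log m := Real.log_nonneg hmR
  have hlog : Real.log m ≤ 10 * (m : ℝ) ^ (1 / 10 : ℝ) := by
    have h := Real.log_le_rpow_div (x := (m : ℝ)) (ε := 1 / 10) hm0.le (by norm_num)
    rw [div_eq_mul_inv] at h
    norm_num at h ⊢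
    linarith
  have hroot : 48 / d₀ ≤ (m : ℝ) ^ (1 / 10 : ℝ) := by
    have h1 : ((48 / d₀) ^ 10) ^ (1 / 10 : ℝ) ≤ (m : ℝ) ^ (1 / 10 : ℝ) :=
      Real.rpow_le_rpow (by positivity) hm2 (by norm_num)
    have h2 : ((48 / d₀) ^ 10) ^ (1 / 10 : ℝ) = 48 / d₀ := by
      rw [← Real.rpow_natCast, ← Real.rpow_mul (by positivity)]
      norm_num
    rwa [h2] at h1
  have hdec : (m : ℝ) = (m : ℝ) ^ (9 / 10 : ℝ) * (m : ℝ) ^ (1 / 10 : ℝ) := by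
    rw [← Real.rpow_add hm0]
    norm_num
  have h910 : 1 ≤ (m : ℝ) ^ (9 / 10 : ℝ) := Real.one_le_rpow hmR (by norm_num)
  have hprod : (m : ℝ) ^ (4 / 5 : ℝ) * (m : ℝ) ^ (1 / 10 : ℝ) = (m : ℝ) ^ (9 / 10 : ℝ) := by
    rw [← Real.rpow_add hm0]
    norm_num
  have h1 : 2 * β * Real.log m ≤ 20 * (m : ℝ) ^ (9 / 10 : ℝ) := by
    have h2 : β * Real.log m ≤ (m : ℝ) ^ (4 / 5 : ℝ) * (10 * (m : ℝ) ^ (1 / 10 : ℝ)) :=
      mul_le_mul hβ hlog hL0 (by positivity)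
    have h3 : (m : ℝ) ^ (4 / 5 : ℝ) * (10 * (m : ℝ) ^ (1 / 10 : ℝ)) =
        10 * (m : ℝ) ^ (9 / 10 : ℝ) := by
      rw [← hprod]
      ring
    linarith
  have h24 : Real.log 24 ≤ 4 := by
    rw [Real.log_le_iff_le_exp (by norm_num)]
    have h2 : (2.7 : ℝ) ^ 4 ≤ Real.exp 1 ^ 4 :=
      pow_le_pow_left₀ (by norm_num) (by linarith [Real.exp_one_gt_d9]) 4
    have h3 : Real.exp 1 ^ 4 = Real.exp 4 := by
      rw [← Real.exp_nat_mul]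
      norm_num
    rw [h3] at h2
    norm_num at h2
    linarith
  have hmain : 24 * (m : ℝ) ^ (9 / 10 : ℝ) ≤ d₀ * m / 2 := by
    have h2 : 48 ≤ d₀ * (m : ℝ) ^ (1 / 10 : ℝ) := by
      rw [div_le_iff₀ h0] at hroot
      linarith
    have h3 : (m : ℝ) ^ (9 / 10 : ℝ) * 48 ≤
        (m : ℝ) ^ (9 / 10 : ℝ) * (d₀ * (m : ℝ) ^ (1 / 10 : ℝ)) :=
      mul_le_mul_of_nonneg_left h2 (by positivity)
    have h4 : (m : ℝ) ^ (9 / 10 : ℝ) * (d₀ * (m : ℝ) ^ (1 / 10 : ℝ)) = d₀ * m := by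
      conv_rhs => rw [hdec]
      ring
    linarith
  have hlhs : 24 * (m : ℝ) ^ (2 * β) = Real.exp (Real.log 24 + 2 * β * Real.log m) := by
    rw [Real.exp_add, Real.exp_log (by norm_num), Real.rpow_def_of_pos hm0, mul_comm (Real.log m)]
  rw [hlhs]
  refine Real.exp_le_exp.2 ?_
  linarith

end Pool.Agent.Helper83.XV
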